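import Pool.Agent.Q289.OC.Stm
import Pool.Agent.Q289.OC.Basic
import Pool.Agent.Y998.ST.Exp

/-! # Project OC (helper289), the random walk mixed at time `t` (helper224) -/

set_option autoImplicit false

namespace Pool.Agent.Q224.OC

open Equiv Finset Q289.OC Pool.Agent.Y998.ST
open scoped InnerProductSpace

section gen

variable {n : ℕ} {c : Fin n → Fin n → ℝ}

theorem exp_eq_E {S : Type} [Fintype S] [DecidableEq S] (M : Matrix S S ℝ) (t : ℝ) :
    NormedSpace.exp (t • M) = E M t := rfl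

theorem rwGen_symm (hs : ∀ x y, c x y = c y x) (x y : Fin n) : rwGen c x y = rwGen c y x := by
  unfold rwGen
  simp only [Matrix.of_apply]
  by_cases h : x = y
  · subst h; rfl
  · rw [if_neg h, if_neg (Ne.symm h), hs]

theorem rwGen_row (x : Fin n) : ∑ y, rwGen c x y = 0 := by
  unfold rwGen
  simp only [Matrix.of_apply]
  rw [← Finset.add_sum_erase univ _ (mem_univ x), if_pos rfl]
  have h : ∀ y ∈ univ.erase x, (if x = y then -∑ z ∈ univ.erase x, c x z else c x y) = c x y :=
    fun y hy => if_neg (Finset.ne_of_mem_erase hy).symm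
  rw [Finset.sum_congr rfl h]
  ring

theorem rwGen_off (hc : ∀ x y, 0 ≤ c x y) {x y : Fin n} (h : x ≠ y) : 0 ≤ rwGen c x y := by
  unfold rwGen
  simp only [Matrix.of_apply]
  rw [if_neg h]
  exact hc x y

end gen

/-! ### semigroups of Metzler matrices -/

section metz

variable {S : Type} [Fintype S] [DecidableEq S]

/-- a matrix which is nonnegative off the diagonal has a nonnegative exponential -/
theorem E_nonneg_of_off {M : Matrix S S ℝ} (hM : ∀ x y, x ≠ y → 0 ≤ M x y) {t : ℝ} (ht : 0 ≤ t)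
    (x y : S) : 0 ≤ E M t x y := by
  obtain ⟨a, ha⟩ : ∃ a : ℝ, a = ∑ x, |M x x| := ⟨_, rfl⟩
  have ha' : ∀ x, -a ≤ M x x := by
    intro x
    have h1 : |M x x| ≤ a := by
      rw [ha]
      exact Finset.single_le_sum (f := fun x => |M x x|) (fun y _ => abs_nonneg _) (mem_univ x)
    have h2 := neg_abs_le (M x x)
    linarith
  obtain ⟨N, hN⟩ : ∃ N : Matrix S S ℝ, N = M + a • (1 : Matrix S S ℝ) := ⟨_, rfl⟩
  have hN0 : ∀ x y, 0 ≤ N x y := by
    intro x y
    rw [hN, Matrix.add_apply, Matrix.smul_apply, smul_eq_mul]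
    by_cases h : x = y
    · subst h
      rw [Matrix.one_apply_eq]
      linarith [ha' x]
    · rw [Matrix.one_apply_ne h, mul_zero, add_zero]
      exact hM x y h
  have h1 : ∀ s : ℝ, (Real.exp (-(a * s)) • E N s : Matrix S S ℝ) = E M s := by
    refine fun s => eq_E (Y := fun s => (Real.exp (-(a * s)) • E N s : Matrix S S ℝ)) ?_ ?_ s
    · intro s x y
      have h2 : HasDerivAt (fun u : ℝ => Real.exp (-(a * u))) (Real.exp (-(a * s)) * (-a)) s := by
        have h3 : HasDerivAt (fun u : ℝ => -(a * u)) (-(a * 1)) s :=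
          ((hasDerivAt_id' s).const_mul a).fun_neg
        rw [mul_one] at h3
        exact h3.exp
      have h4 := h2.mul (E_deriv' N s x y)
      simp only [Matrix.smul_apply, smul_eq_mul]
      refine h4.congr_deriv ?_
      rw [hN, Matrix.mul_add, Matrix.mul_smul, Matrix.mul_one, Matrix.smul_mul]
      simp only [Matrix.smul_apply, Matrix.add_apply, smul_eq_mul]
      ring
    · simp only [mul_zero, neg_zero, Real.exp_zero, one_smul, E_zero]
  rw [← h1 t, Matrix.smul_apply, smul_eq_mul]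
  exact mul_nonneg (Real.exp_pos _).le (E_nonneg hN0 ht x y)

/-- zero row sums -/
theorem E_row {M : Matrix S S ℝ} (hM : ∀ x, ∑ y, M x y = 0) (t : ℝ) (x : S) :
    ∑ y, E M t x y = 1 := by
  have hd : ∀ s, HasDerivAt (fun u => ∑ y, E M u x y) 0 s := by
    intro s
    have h1 := HasDerivAt.fun_sum (u := (Finset.univ : Finset S)) fun y _ => E_deriv' M s x y
    refine h1.congr_deriv ?_
    simp only [Matrix.mul_apply]
    rw [Finset.sum_comm]
    refine Finset.sum_eq_zero fun z _ => ?_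
    rw [← Finset.mul_sum, hM, mul_zero]
  have hc := is_const_of_deriv_eq_zero (fun s => (hd s).differentiableAt) (fun s => (hd s).deriv) t 0
  rw [hc]
  simp only [E_zero]
  rw [Finset.sum_eq_single x]
  · exact Matrix.one_apply_eq x
  · intro y _ hy; exact Matrix.one_apply_ne hy.symm
  · intro h; exact absurd (mem_univ x) h

theorem E_symm {M : Matrix S S ℝ} (hM : ∀ x y, M x y = M y x) (t : ℝ) (x y : S) :
    E M t x y = E M t y x := by
  have h1 : (t • M).transpose = t • M := by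
    ext x y
    rw [Matrix.transpose_apply, Matrix.smul_apply, Matrix.smul_apply, hM]
  have h2 := Matrix.exp_transpose (t • M)
  rw [h1] at h2
  have h3 : E M t = (E M t).transpose := h2
  have h4 := congrFun (congrFun h3 x) y
  rw [Matrix.transpose_apply] at h4
  exact h4

end metz

/-- overlap of two probability vectors close to the uniform one -/
theorem overlap {n : ℕ} (hn : 0 < n) {f g : Fin n → ℝ} (hf : ∀ z, 0 ≤ f z) (hg : ∀ z, 0 ≤ g z)
    (hf1 : ∑ z, f z = 1) (hg1 : ∑ z, g z = 1)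
    (hf2 : (1 / 2 : ℝ) * ∑ y, |f y - 1 / n| ≤ 1 / 4)
    (hg2 : (1 / 2 : ℝ) * ∑ y, |g y - 1 / n| ≤ 1 / 4) : 1 / (4 * (n : ℝ)) ≤ ∑ z, f z * g z := by
  have hn0 : (0 : ℝ) < n := by exact_mod_cast hn
  have h1 : ∀ z, 1 / (n : ℝ) - (1 / 2 * |f z - 1 / n| - 1 / 2 * (f z - 1 / n)) -
      (1 / 2 * |g z - 1 / n| - 1 / 2 * (g z - 1 / n)) ≤ min (f z) (g z) := by
    intro z
    rcases le_total (f z) (g z) with h | h
    · rw [min_eq_left h]
      have h2 := le_abs_self (g z - 1 / (n : ℝ))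
      have h3 := neg_abs_le (f z - 1 / (n : ℝ))
      linarith
    · rw [min_eq_right h]
      have h2 := le_abs_self (f z - 1 / (n : ℝ))
      have h3 := neg_abs_le (g z - 1 / (n : ℝ))
      linarith
  have h2 : 1 / 2 ≤ ∑ z, min (f z) (g z) := by
    have h3 := Finset.sum_le_sum fun z (_ : z ∈ (univ : Finset (Fin n))) => h1 z
    have h4 : ∑ z, (1 / (n : ℝ) - (1 / 2 * |f z - 1 / n| - 1 / 2 * (f z - 1 / n)) -
      (1 / 2 * |g z - 1 / n| - 1 / 2 * (g z - 1 / n))) = 1 - 1 / 2 * ∑ z, |f z - 1 / (n : ℝ)| -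
        1 / 2 * ∑ z, |g z - 1 / (n : ℝ)| := by
      simp only [Finset.sum_sub_distrib, ← Finset.mul_sum, hf1, hg1]
      have h5 : ∑ _z : Fin n, 1 / (n : ℝ) = 1 := by
        rw [Finset.sum_const, Finset.card_univ, Fintype.card_fin, nsmul_eq_mul]
        field_simp
      rw [h5]
      ring
    rw [h4] at h3
    linarith
  have h3 : ∀ z, (min (f z) (g z)) ^ 2 ≤ f z * g z := by
    intro z
    rcases le_total (f z) (g z) with h | h
    · rw [min_eq_left h, sq]
      exact mul_le_mul_of_nonneg_left h (hf z)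
    · rw [min_eq_right h, sq]
      exact mul_le_mul_of_nonneg_right h (hg z)
  have h4 : (∑ z, min (f z) (g z)) ^ 2 ≤ (n : ℝ) * ∑ z, (min (f z) (g z)) ^ 2 := by
    have h5 := sq_sum_le_card_mul_sum_sq (s := (univ : Finset (Fin n))) (f := fun z => min (f z) (g z))
    rw [Finset.card_univ, Fintype.card_fin] at h5
    exact h5
  have h5 := Finset.sum_le_sum fun z (_ : z ∈ (univ : Finset (Fin n))) => h3 z
  have h6 : (1 / 4 : ℝ) ≤ (∑ z, min (f z) (g z)) ^ 2 := by nlinarith
  have h7 : (1 / 4 : ℝ) ≤ n * ∑ z, f z * g z :=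
    h6.trans (h4.trans (mul_le_mul_of_nonneg_left h5 hn0.le))
  rw [div_le_iff₀ (by positivity)]
  linarith

theorem heat : HeatStm := by
  intro n c t hn hc hs ht hmix
  obtain ⟨Q, hQ⟩ : ∃ Q : Matrix (Fin n) (Fin n) ℝ, Q = rwGen c := ⟨_, rfl⟩
  have hn0 : (0 : ℝ) < n := by exact_mod_cast (show 0 < n by omega)
  have hQs : ∀ x y, Q x y = Q y x := by rw [hQ]; exact rwGen_symm hs
  have hQr : ∀ x, ∑ y, Q x y = 0 := by rw [hQ]; exact rwGen_row
  have hQo : ∀ x y, x ≠ y → 0 ≤ Q x y := by rw [hQ]; exact fun x y h => rwGen_off hc h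
  rw [← hQ] at hmix ⊢
  obtain ⟨K, hK⟩ : ∃ K : Matrix (Fin n) (Fin n) ℝ, K = (1 / t : ℝ) • (1 : Matrix (Fin n) (Fin n) ℝ) - Q := ⟨_, rfl⟩
  rw [← hK]
  have hKa : ∀ x y, K x y = 1 / t * (1 : Matrix (Fin n) (Fin n) ℝ) x y - Q x y := by
    intro x y
    rw [hK, Matrix.sub_apply, Matrix.smul_apply, smul_eq_mul]
  have hone : ∀ x : Fin n, ∑ y, (1 : Matrix (Fin n) (Fin n) ℝ) x y = 1 := by
    intro x
    rw [Finset.sum_eq_single x]
    · exact Matrix.one_apply_eq x
    · intro y _ hy; exact Matrix.one_apply_ne hy.symm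
    · intro h; exact absurd (mem_univ x) h
  have hKsymm : ∀ x y, K x y = K y x := by
    intro x y
    rw [hKa, hKa, hQs]
    congr 2
    by_cases h : x = y
    · rw [h]
    · rw [Matrix.one_apply_ne h, Matrix.one_apply_ne (Ne.symm h)]
  have hKrow : ∀ x, ∑ y, K x y = 1 / t := by
    intro x
    simp only [hKa]
    rw [Finset.sum_sub_distrib, ← Finset.mul_sum, hone, hQr]
    ring
  refine ⟨⟨hKsymm, ?_, ?_⟩, ?_⟩
  · intro x y h
    rw [hKa, Matrix.one_apply_ne h, mul_zero, zero_sub]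
    linarith [hQo x y h]
  · intro x
    rw [hKrow]
    positivity
  intro G hG hGs hG0
  have hsum : ∀ x, ∑ y, G x y = t := by
    intro x
    have h1 : ∑ w, (K * G) w x = 1 / t * ∑ z, G z x := by
      simp only [Matrix.mul_apply]
      rw [Finset.sum_comm, Finset.mul_sum]
      refine Finset.sum_congr rfl fun z _ => ?_
      rw [← Finset.sum_mul]
      congr 1
      rw [← hKrow z]
      exact Finset.sum_congr rfl fun w _ => hKsymm w z
    have h2 : ∑ w, (K * G) w x = 1 := by
      rw [hG, ← hone x]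
      refine Finset.sum_congr rfl fun w _ => ?_
      by_cases h : w = x
      · rw [h]
      · rw [Matrix.one_apply_ne h, Matrix.one_apply_ne (Ne.symm h)]
    rw [h2] at h1
    have h3 : ∑ y, G x y = ∑ z, G z x := Finset.sum_congr rfl fun y _ => hGs x y
    rw [h3]
    field_simp at h1
    exact h1.symm
  refine ⟨hsum, fun x y => ?_⟩
  have hPn : ∀ s : ℝ, 0 ≤ s → ∀ x y, 0 ≤ E Q s x y := fun s hs' x y => E_nonneg_of_off hQo hs' x y
  -- the heat kernel at time 2t
  have hmix' : ∀ x, (1 / 2 : ℝ) * ∑ y, |E Q t x y - 1 / n| ≤ 1 / 4 := hmix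
  have h2t : ∀ x z, 1 / (4 * (n : ℝ)) ≤ E Q (2 * t) x z := by
    intro x z
    have h1 : E Q (2 * t) x z = ∑ w, E Q t x w * E Q t z w := by
      rw [two_mul, E_add, Matrix.mul_apply]
      exact Finset.sum_congr rfl fun w _ => by rw [E_symm hQs t w z]
    rw [h1]
    exact overlap (by omega) (hPn t ht.le x) (hPn t ht.le z) (E_row hQr t x) (E_row hQr t z)
      (hmix' x) (hmix' z)
  obtain ⟨f, hf⟩ : ∃ f : ℝ → ℝ, f = fun s => Real.exp (-(1 / t * s)) * (∑ z, E Q s x z * G z y) := ⟨_, rfl⟩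
  have hd : ∀ s, HasDerivAt f (-(Real.exp (-(1 / t * s)) * E Q s x y)) s := by
    intro s
    have h2 : HasDerivAt (fun u : ℝ => Real.exp (-(1 / t * u))) (Real.exp (-(1 / t * s)) * (-(1 / t))) s := by
      have h3 : HasDerivAt (fun u : ℝ => -(1 / t * u)) (-(1 / t * 1)) s :=
        ((hasDerivAt_id' s).const_mul (1 / t)).fun_neg
      rw [mul_one] at h3
      exact h3.exp
    have h3 : HasDerivAt (fun u : ℝ => ∑ z, E Q u x z * G z y) (∑ z, (E Q s * Q) x z * G z y) s :=
      HasDerivAt.fun_sum fun z _ => (E_deriv' Q s x z).mul_const (G z y)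
    rw [hf]
    refine (h2.mul h3).congr_deriv ?_
    have h4 : ∑ z, (E Q s * Q) x z * G z y = (E Q s * Q * G) x y := (Matrix.mul_apply).symm
    have h5 : ∑ z, E Q s x z * G z y = (E Q s * G) x y := (Matrix.mul_apply).symm
    rw [h4, h5]
    have h6 : Q * G = (1 / t : ℝ) • G - 1 := by
      have h7 : Q = (1 / t : ℝ) • (1 : Matrix (Fin n) (Fin n) ℝ) - K := by rw [hK]; abel
      rw [h7, Matrix.sub_mul, Matrix.smul_mul, Matrix.one_mul, hG]
    rw [Matrix.mul_assoc, h6, Matrix.mul_sub, Matrix.mul_smul, Matrix.mul_one]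
    simp only [Matrix.sub_apply, Matrix.smul_apply, smul_eq_mul]
    ring
  have hanti : AntitoneOn f (Set.Icc 0 (2 * t)) := by
    refine antitoneOn_of_deriv_nonpos (convex_Icc 0 (2 * t))
      (fun s _ => (hd s).continuousAt.continuousWithinAt)
      (fun s _ => (hd s).differentiableAt.differentiableWithinAt) fun s hs' => ?_
    rw [interior_Icc] at hs'
    rw [(hd s).deriv, neg_nonpos]
    exact mul_nonneg (Real.exp_pos _).le (hPn s hs'.1.le x y)
  have h1 := hanti (Set.left_mem_Icc.2 (by linarith)) (Set.right_mem_Icc.2 (by linarith : (0 : ℝ) ≤ 2 * t))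
    (by linarith : (0 : ℝ) ≤ 2 * t)
  have h0 : f 0 = G x y := by
    rw [hf]
    simp only [mul_zero, neg_zero, Real.exp_zero, one_mul, E_zero]
    rw [Finset.sum_eq_single x]
    · rw [Matrix.one_apply_eq, one_mul]
    · intro z _ hz; rw [Matrix.one_apply_ne hz.symm, zero_mul]
    · intro h; exact absurd (mem_univ x) h
  rw [h0, hf] at h1
  simp only at h1
  have h2 : -(1 / t * (2 * t)) = -2 := by field_simp
  rw [h2] at h1
  refine le_trans ?_ h1
  have h3 : t / (4 * (n : ℝ)) ≤ ∑ z, E Q (2 * t) x z * G z y := by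
    have h4 : ∑ z, 1 / (4 * (n : ℝ)) * G z y ≤ ∑ z, E Q (2 * t) x z * G z y :=
      Finset.sum_le_sum fun z _ => mul_le_mul_of_nonneg_right (h2t x z) (hG0 z y)
    rw [← Finset.mul_sum] at h4
    have h5 : ∑ z, G z y = t := by
      rw [← hsum y]
      exact Finset.sum_congr rfl fun z _ => hGs z y
    rw [h5] at h4
    refine le_trans (le_of_eq ?_) h4
    field_simp
  calc Real.exp (-2) / 4 * (t / n) = Real.exp (-2) * (t / (4 * (n : ℝ))) := by field_simp
    _ ≤ _ := mul_le_mul_of_nonneg_left h3 (Real.exp_pos _).le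

end Pool.Agent.Q224.OC
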