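import Pool.Agent.Q224.OC.Heat
import Pool.Agent.Results.MP_c0051b_pr.TranspositionLpCutoff

/-! # Project OC (helper289), return probabilities of the interchange process (helper224) -/

set_option autoImplicit false

namespace Pool.Agent.Q224.OC

open Equiv Finset Q289.OC Pool.Agent.Y998.ST Pool.Agent.Results.MP_c0051b_pr.TranspositionLpCutoff
open RT (L2 dl rt rt_apply inner_L2 inner_dl inner_dl' dl_apply KK KK_apply Gp Gp_apply Cen Sym eB)
open scoped InnerProductSpace Nat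

section

variable {n : ℕ}

/-- the right regular representation -/
noncomputable def rr (n : ℕ) : Perm (Fin n) →* (L2 n →ₗ[ℝ] L2 n) where
  toFun g := rt g
  map_one' := by
    refine LinearMap.ext fun f => ?_
    ext h
    rw [rt_apply, mul_one]
    rfl
  map_mul' g g' := by
    refine LinearMap.ext fun f => ?_
    ext h
    rw [Module.End.mul_apply, rt_apply, rt_apply, rt_apply, mul_assoc]

theorem rr_apply (g h : Perm (Fin n)) (f : L2 n) : rr n g f h = f (h * g) := rfl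

theorem unit_rr (n : ℕ) : RT.Unit (rr n) := by
  intro g v w
  rw [inner_L2, inner_L2]
  simp_rw [rr_apply]
  exact Equiv.sum_comp (Equiv.mulRight g) fun σ => v σ * w σ

/-- the generator of the interchange process, as an operator -/
noncomputable def AA (c : Fin n → Fin n → ℝ) : L2 n →ₗ[ℝ] L2 n :=
  (1 / 2 : ℝ) • ∑ u, ∑ v, c u v • (LinearMap.id - rr n (swap u v))

theorem AA_apply (c : Fin n → Fin n → ℝ) (f : L2 n) :
    AA c f = (1 / 2 : ℝ) • ∑ u, ∑ v, c u v • (f - rr n (swap u v) f) := by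
  simp [AA, LinearMap.sum_apply]

theorem AA_symm (c : Fin n → Fin n → ℝ) : Sym (AA c) := by
  intro f g
  rw [AA_apply, AA_apply, real_inner_smul_left, real_inner_smul_right, sum_inner, inner_sum]
  congr 1
  refine Finset.sum_congr rfl fun u _ => ?_
  rw [sum_inner, inner_sum]
  refine Finset.sum_congr rfl fun v _ => ?_
  rw [real_inner_smul_left, real_inner_smul_right, inner_sub_left, inner_sub_right,
    (unit_rr n).swap_symm]

theorem AA_comm (c : Fin n → Fin n → ℝ) {S : L2 n →ₗ[ℝ] L2 n} (hS : Cen (rr n) S) (f : L2 n) :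
    S (AA c f) = AA c (S f) := by
  rw [AA_apply, AA_apply, map_smul, map_sum]
  congr 1
  refine Finset.sum_congr rfl fun u _ => ?_
  rw [map_sum]
  refine Finset.sum_congr rfl fun v _ => ?_
  rw [map_smul, map_sub, hS]

theorem inner_AA (c : Fin n → Fin n → ℝ) (f : L2 n) :
    2 * ⟪AA c f, f⟫_ℝ = ∑ u, ∑ v, c u v * DD (rr n) f u v := by
  rw [AA_apply, real_inner_smul_left, sum_inner, ← mul_assoc]
  norm_num
  refine Finset.sum_congr rfl fun u _ => ?_
  rw [sum_inner]
  refine Finset.sum_congr rfl fun v _ => ?_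
  rw [real_inner_smul_left, inner_sub_left, DD, mc, mc, rho_one]

theorem AA_mat (c : Fin n → Fin n → ℝ) (f : L2 n) (σ : Perm (Fin n)) :
    (-(AA c)) f σ = ∑ τ, ipGen c σ τ * f τ := by
  rw [LinearMap.neg_apply, PiLp.neg_apply, AA_apply, PiLp.smul_apply, RT.sum_apply', smul_eq_mul]
  have h1 : ∀ τ, ipGen c σ τ * f τ = 1 / 2 * ∑ u, ∑ v,
      c u v * ((if τ = σ * swap u v then f τ else 0) - (if τ = σ then f τ else 0)) := by
    intro τ
    unfold ipGen
    simp only [Matrix.of_apply]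
    rw [mul_assoc, Finset.sum_mul]
    congr 1
    refine Finset.sum_congr rfl fun u _ => ?_
    rw [Finset.sum_mul]
    refine Finset.sum_congr rfl fun v _ => ?_
    rw [mul_assoc, sub_mul, ite_mul, ite_mul, one_mul, zero_mul]
  rw [Finset.sum_congr rfl fun τ _ => h1 τ, ← Finset.mul_sum, ← mul_neg]
  congr 1
  rw [Finset.sum_comm, ← Finset.sum_neg_distrib]
  refine Finset.sum_congr rfl fun u _ => ?_
  rw [RT.sum_apply', Finset.sum_comm, ← Finset.sum_neg_distrib]
  refine Finset.sum_congr rfl fun v _ => ?_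
  rw [← Finset.mul_sum, Finset.sum_sub_distrib, Finset.sum_ite_eq' univ (σ * swap u v),
    Finset.sum_ite_eq' univ σ, if_pos (mem_univ _), if_pos (mem_univ _), PiLp.smul_apply,
    PiLp.sub_apply, rr_apply, smul_eq_mul]
  ring

theorem ipGen_symm (c : Fin n → Fin n → ℝ) (σ τ : Perm (Fin n)) : ipGen c σ τ = ipGen c τ σ := by
  unfold ipGen
  simp only [Matrix.of_apply]
  congr 1
  refine Finset.sum_congr rfl fun u _ => Finset.sum_congr rfl fun v _ => ?_
  have h1 : (τ = σ * swap u v) ↔ (σ = τ * swap u v) := by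
    constructor
    · intro h; rw [h, mul_assoc, swap_mul_self, mul_one]
    · intro h; rw [h, mul_assoc, swap_mul_self, mul_one]
  have h2 : (τ = σ) ↔ (σ = τ) := eq_comm
  simp only [h1, h2]

/-- the transition operator of the interchange process -/
noncomputable def EE (c : Fin n → Fin n → ℝ) (t : ℝ) : L2 n →ₗ[ℝ] L2 n where
  toFun f := WithLp.toLp 2 (fun σ => ∑ τ, E (ipGen c) t σ τ * f τ)
  map_add' f g := by
    ext σ
    simp only [PiLp.add_apply, mul_add, Finset.sum_add_distrib]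
  map_smul' a f := by
    ext σ
    simp only [PiLp.smul_apply, smul_eq_mul, RingHom.id_apply, Finset.mul_sum]
    exact Finset.sum_congr rfl fun τ _ => by ring

theorem EE_apply (c : Fin n → Fin n → ℝ) (t : ℝ) (f : L2 n) (σ : Perm (Fin n)) :
    EE c t f σ = ∑ τ, E (ipGen c) t σ τ * f τ := rfl

theorem EE_symm (c : Fin n → Fin n → ℝ) (t : ℝ) : Sym (EE c t) := by
  intro f g
  rw [inner_L2, inner_L2]
  simp only [EE_apply, Finset.sum_mul, Finset.mul_sum]
  rw [Finset.sum_comm]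
  refine Finset.sum_congr rfl fun σ _ => Finset.sum_congr rfl fun τ _ => ?_
  rw [E_symm (ipGen_symm c) t τ σ]
  ring

theorem pow_mat (c : Fin n → Fin n → ℝ) (k : ℕ) (f : L2 n) (σ : Perm (Fin n)) :
    ((-(AA c)) ^ k) f σ = ∑ τ, (ipGen c ^ k) σ τ * f τ := by
  induction k generalizing σ with
  | zero =>
    rw [pow_zero, pow_zero, Module.End.one_apply, Finset.sum_eq_single σ]
    · rw [Matrix.one_apply_eq, one_mul]
    · intro τ _ hτ; rw [Matrix.one_apply_ne hτ.symm, zero_mul]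
    · intro h; exact absurd (mem_univ σ) h
  | succ k ih =>
    rw [pow_succ', Module.End.mul_apply, AA_mat, pow_succ']
    simp only [ih, Matrix.mul_apply, Finset.sum_mul, Finset.mul_sum]
    rw [Finset.sum_comm]
    exact Finset.sum_congr rfl fun σ' _ => Finset.sum_congr rfl fun τ _ => by ring

theorem EE_hasSum (c : Fin n → Fin n → ℝ) (t : ℝ) (f : L2 n) :
    HasSum (fun k : ℕ => (t ^ k / (k.factorial : ℝ)) • ((-(AA c)) ^ k) f) (EE c t f) := by
  have h1 : HasSum (fun k : ℕ => (fun σ => (t ^ k / (k.factorial : ℝ)) * (((-(AA c)) ^ k) f σ) :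
      Perm (Fin n) → ℝ)) (fun σ => ∑ τ, E (ipGen c) t σ τ * f τ) := by
    refine Pi.hasSum.2 fun σ => ?_
    have h2 : HasSum (fun k : ℕ => ∑ τ, t ^ k / (k.factorial : ℝ) * (ipGen c ^ k) σ τ * f τ)
        (∑ τ, E (ipGen c) t σ τ * f τ) :=
      hasSum_sum fun τ _ => (E_hasSum (ipGen c) t σ τ).mul_right (f τ)
    have h3 : (fun k : ℕ => (t ^ k / (k.factorial : ℝ)) * (((-(AA c)) ^ k) f σ)) =
        fun k : ℕ => ∑ τ, t ^ k / (k.factorial : ℝ) * (ipGen c ^ k) σ τ * f τ := by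
      funext k
      rw [pow_mat, Finset.mul_sum]
      exact Finset.sum_congr rfl fun τ _ => by ring
    rw [h3]
    exact h2
  exact h1.mapL ((PiLp.continuousLinearEquiv 2 ℝ (fun _ : Perm (Fin n) => ℝ)).symm :
    (Perm (Fin n) → ℝ) →L[ℝ] L2 n)

theorem pow_comm_S (c : Fin n → Fin n → ℝ) {S : L2 n →ₗ[ℝ] L2 n}
    (hS : ∀ f, S (AA c f) = AA c (S f)) (k : ℕ) (f : L2 n) :
    S (((-(AA c)) ^ k) f) = ((-(AA c)) ^ k) (S f) := by
  induction k with
  | zero => rfl
  | succ k ih =>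
    rw [pow_succ', Module.End.mul_apply, Module.End.mul_apply, LinearMap.neg_apply, map_neg, hS, ih,
      LinearMap.neg_apply]

theorem EE_comm (c : Fin n → Fin n → ℝ) (t : ℝ) {S : L2 n →ₗ[ℝ] L2 n}
    (hS : ∀ f, S (AA c f) = AA c (S f)) (f : L2 n) : S (EE c t f) = EE c t (S f) := by
  have h1 := (EE_hasSum c t f).mapL (LinearMap.toContinuousLinearMap S)
  have h2 := EE_hasSum c t (S f)
  have h3 : (fun k : ℕ => (LinearMap.toContinuousLinearMap S)
      ((t ^ k / (k.factorial : ℝ)) • ((-(AA c)) ^ k) f)) =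
      fun k : ℕ => (t ^ k / (k.factorial : ℝ)) • ((-(AA c)) ^ k) (S f) := by
    funext k
    rw [LinearMap.coe_toContinuousLinearMap', map_smul, pow_comm_S c hS]
  rw [h3] at h1
  exact h1.unique h2

theorem EE_eig (c : Fin n → Fin n → ℝ) (t : ℝ) {α : ℝ} {w : L2 n} (hw : AA c w = α • w) :
    EE c t w = Real.exp (-(t * α)) • w := by
  have h0 : ∀ k : ℕ, ((-(AA c)) ^ k) w = ((-α) ^ k) • w := by
    intro k
    induction k with
    | zero => rw [pow_zero, pow_zero, one_smul]; rfl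
    | succ k ih =>
      rw [pow_succ', Module.End.mul_apply, ih, LinearMap.neg_apply, map_smul, hw, ← smul_neg,
        ← neg_smul, smul_smul, pow_succ]
  have h1 := EE_hasSum c t w
  have h2 : HasSum (fun k : ℕ => ((-(t * α)) ^ k / (k.factorial : ℝ))) (Real.exp (-(t * α))) := by
    rw [Real.exp_eq_exp_ℝ]
    exact NormedSpace.expSeries_div_hasSum_exp (-(t * α))
  have h3 := h2.smul_const w
  have h4 : (fun k : ℕ => (t ^ k / (k.factorial : ℝ)) • ((-(AA c)) ^ k) w) =
      fun k : ℕ => ((-(t * α)) ^ k / (k.factorial : ℝ)) • w := by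
    funext k
    rw [h0, smul_smul]
    congr 1
    rw [show -(t * α) = t * (-α) by ring, mul_pow]
    ring
  rw [h4] at h1
  exact h1.unique h3

/-- the level of a subrepresentation bounds `1 - r` from below -/
theorem level_gap (hn : 2 ≤ n) (F : Submodule ℝ (L2 n)) (hF : ∀ g, ∀ u ∈ F, rr n g u ∈ F)
    (A : Finset (Fin n)) {v : L2 n} (hvF : v ∈ F) (hv0 : v ≠ 0) (hv : RT.Inv (rr n) Aᶜ v)
    (hA : ∀ A' : Finset (Fin n), A'.card < A.card → ∀ v ∈ F, eB (rr n) A'ᶜ v = 0) {r : ℝ}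
    (hr : KK (rr n) v = r • v) : (A.card : ℝ) / 4 ≤ (n : ℝ) / 2 * (1 - r) := by
  have hn1 : 0 < n := by omega
  have hn0 : (0 : ℝ) < n := by exact_mod_cast hn1
  have hn2 : (2 : ℝ) ≤ n := by exact_mod_cast hn
  have hkn : A.card ≤ n := RT.card_le' A
  have hknr : (A.card : ℝ) ≤ n := by exact_mod_cast hkn
  have hk0 : (0 : ℝ) ≤ A.card := Nat.cast_nonneg _
  have h1 := ((unit_rr n).level_bound F A hvF hv0 hv hA hr hn1).2
  rcases Nat.lt_or_ge n (2 * A.card) with h | h
  · rcases Nat.lt_or_ge A.card n with h' | h'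
    · have h2 := (unit_rr n).high_bound F hF (m := n - A.card) (by omega) (Nat.sub_le _ _) (by
        intro B hB z hz
        have h5 := hA Bᶜ (by rw [Finset.card_compl, Fintype.card_fin]; omega) z hz
        rwa [compl_compl] at h5) hvF hv0 hr hn1
      rw [Nat.cast_sub hkn] at h2
      have h3 : (n : ℝ) / 2 * (((n : ℝ) - (n - A.card)) * (n - (n - A.card) + 1) / (n : ℝ) ^ 2) =
          A.card * (A.card + 1) / (2 * n) := by
        field_simp
        ring
      have h4 : (A.card : ℝ) / 4 ≤ A.card * (A.card + 1) / (2 * n) := by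
        rw [div_le_div_iff₀ (by norm_num) (by positivity)]
        have h5 : (n : ℝ) ≤ 2 * A.card := by exact_mod_cast h.le
        nlinarith
      have h5 : (n : ℝ) / 2 * (((n : ℝ) - (n - A.card)) * (n - (n - A.card) + 1) / (n : ℝ) ^ 2) ≤
          (n : ℝ) / 2 * (1 - r) := mul_le_mul_of_nonneg_left (by linarith) (by positivity)
      linarith
    · have hkn' : A.card = n := le_antisymm hkn h'
      have h2 := (unit_rr n).high_bound F hF (m := 1) le_rfl hn1 (by
        intro B hB z hz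
        have h5 := hA Bᶜ (by rw [Finset.card_compl, Fintype.card_fin]; omega) z hz
        rwa [compl_compl] at h5) hvF hv0 hr hn1
      push_cast at h2
      have h3 : (n : ℝ) / 2 * (((n : ℝ) - 1) * (n - 1 + 1) / (n : ℝ) ^ 2) = ((n : ℝ) - 1) / 2 := by
        field_simp
        ring
      have h5 : (n : ℝ) / 2 * (((n : ℝ) - 1) * (n - 1 + 1) / (n : ℝ) ^ 2) ≤
          (n : ℝ) / 2 * (1 - r) := mul_le_mul_of_nonneg_left (by linarith) (by positivity)
      rw [hkn']
      linarith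
  · have h3 : (n : ℝ) / 2 * (2 * A.card * (n - A.card + 1) / (n : ℝ) ^ 2) =
        A.card * (n - A.card + 1) / n := by
      field_simp
    have h4 : (A.card : ℝ) / 4 ≤ A.card * (n - A.card + 1) / n := by
      rw [div_le_div_iff₀ (by norm_num) (by positivity)]
      have h5 : 2 * (A.card : ℝ) ≤ n := by exact_mod_cast h
      nlinarith
    have h5 : (n : ℝ) / 2 * (2 * A.card * (n - A.card + 1) / (n : ℝ) ^ 2) ≤
        (n : ℝ) / 2 * (1 - r) := mul_le_mul_of_nonneg_left (by linarith) (by positivity)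
    linarith

/-- the comparison of the transition operators -/
theorem EE_le_Gp (hn : 2 ≤ n) {c : Fin n → Fin n → ℝ} {κ t p : ℝ} (hκ : 0 < κ) (ht : 0 ≤ t)
    (hp : 0 < p) (hnp : n * p ≤ 1 / 2) (hexp : Real.exp (-(t * κ / 4)) ≤ p / 2)
    (hcomp : ∀ f : L2 n, κ * ((1 / n) * ∑ x, ∑ y, DD (rr n) f x y) ≤
      ∑ x, ∑ y, c x y * DD (rr n) f x y) (v : L2 n) :
    ⟪EE c t v, v⟫_ℝ ≤ ⟪Gp (rr n) p v, v⟫_ℝ := by
  have hn1 : 0 < n := by omega
  have hn0 : (0 : ℝ) < n := by exact_mod_cast hn1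
  have hn2 : (2 : ℝ) ≤ n := by exact_mod_cast hn
  have hp1 : p ≤ 1 := by nlinarith
  have hU := unit_rr n
  have hG : Sym (Gp (rr n) p) := hU.Gp_symm p
  have hK : Sym (KK (rr n)) := fun v w => hU.KK_symm v w
  have hGc : ∀ f, Gp (rr n) p (AA c f) = AA c (Gp (rr n) p f) := AA_comm c (RT.cen_Gp p)
  have hKc : ∀ f, KK (rr n) (AA c f) = AA c (KK (rr n) f) := AA_comm c RT.cen_KK
  obtain ⟨X, hX⟩ : ∃ X : L2 n →ₗ[ℝ] L2 n, X = Gp (rr n) p - EE c t := ⟨_, rfl⟩
  have hXa : ∀ f, X f = Gp (rr n) p f - EE c t f := fun f => by rw [hX, LinearMap.sub_apply]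
  have hXs : Sym X := by rw [hX]; exact RT.Sym.sub hG (EE_symm c t)
  have hGG : ∀ f, Gp (rr n) p (KK (rr n) f) = KK (rr n) (Gp (rr n) p f) := fun f =>
    RT.Cen.comm_KK (RT.cen_Gp p) f
  have hXG : ∀ f, X (Gp (rr n) p f) = Gp (rr n) p (X f) := by
    intro f
    rw [hXa, hXa, map_sub, EE_comm c t hGc]
  have hXK : ∀ f, X (KK (rr n) f) = KK (rr n) (X f) := by
    intro f
    rw [hXa, hXa, map_sub, EE_comm c t hKc, hGG]
  have hXA : ∀ f, X (AA c f) = AA c (X f) := by
    intro f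
    rw [hXa, hXa, map_sub, EE_comm c t (fun _ => rfl), hGc]
  suffices h : 0 ≤ ⟪X v, v⟫_ℝ by
    rw [hXa, inner_sub_left] at h
    linarith
  refine RT.nonneg_of_eig hXs ?_ v
  intro x w0 hw0 hxw0
  -- joint eigenvector
  obtain ⟨E0, hE0⟩ : ∃ E0 : Submodule ℝ (L2 n), ∀ u, u ∈ E0 ↔ X u = x • u :=
    ⟨LinearMap.ker (X - x • LinearMap.id), fun u => by
      rw [LinearMap.mem_ker, LinearMap.sub_apply, LinearMap.smul_apply, LinearMap.id_apply,
        sub_eq_zero]⟩
  obtain ⟨g, w1, hw1, hw10, hgw1⟩ := RT.exists_eig hG E0 (fun u hu => by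
    rw [hE0] at hu ⊢; rw [hXG, hu, map_smul]) (by
      intro h0
      have : w0 ∈ E0 := (hE0 w0).2 hxw0
      rw [h0, Submodule.mem_bot] at this
      exact hw0 this)
  obtain ⟨E1, hE1⟩ : ∃ E1 : Submodule ℝ (L2 n), ∀ u, u ∈ E1 ↔ (X u = x • u ∧ Gp (rr n) p u = g • u) :=
    ⟨E0 ⊓ LinearMap.ker (Gp (rr n) p - g • LinearMap.id), fun u => by
      rw [Submodule.mem_inf, hE0, LinearMap.mem_ker, LinearMap.sub_apply, LinearMap.smul_apply,
        LinearMap.id_apply, sub_eq_zero]⟩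
  obtain ⟨r, w2, hw2, hw20, hrw2⟩ := RT.exists_eig hK E1 (fun u hu => by
    rw [hE1] at hu ⊢; exact ⟨by rw [hXK, hu.1, map_smul], by rw [hGG, hu.2, map_smul]⟩) (by
      intro h0
      have : w1 ∈ E1 := (hE1 w1).2 ⟨(hE0 w1).1 hw1, hgw1⟩
      rw [h0, Submodule.mem_bot] at this
      exact hw10 this)
  obtain ⟨E2, hE2⟩ : ∃ E2 : Submodule ℝ (L2 n), ∀ u, u ∈ E2 ↔
      ((X u = x • u ∧ Gp (rr n) p u = g • u) ∧ KK (rr n) u = r • u) :=
    ⟨E1 ⊓ LinearMap.ker (KK (rr n) - r • LinearMap.id), fun u => by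
      rw [Submodule.mem_inf, hE1, LinearMap.mem_ker, LinearMap.sub_apply, LinearMap.smul_apply,
        LinearMap.id_apply, sub_eq_zero]⟩
  obtain ⟨α, w, hw, hw00, hαw⟩ := RT.exists_eig (AA_symm c) E2 (fun u hu => by
    rw [hE2] at hu ⊢
    exact ⟨⟨by rw [hXA, hu.1.1, map_smul], by rw [hGc, hu.1.2, map_smul]⟩,
      by rw [hKc, hu.2, map_smul]⟩) (by
      intro h0
      have : w2 ∈ E2 := (hE2 w2).2 ⟨(hE1 w2).1 hw2, hrw2⟩
      rw [h0, Submodule.mem_bot] at this
      exact hw20 this)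
  obtain ⟨⟨hXw, hGw⟩, hKw⟩ := (hE2 w).1 hw
  have hw2' : 0 < ‖w‖ ^ 2 := by positivity
  -- the hypothesis at `w`
  have hα : κ * ((n : ℝ) / 2 * (1 - r)) ≤ α := by
    have h1 := hcomp w
    rw [← inner_AA, hαw, real_inner_smul_left, real_inner_self_eq_norm_sq] at h1
    have h2 : ∑ x, ∑ y, DD (rr n) w x y = (n : ℝ) ^ 2 * (1 - r) * ‖w‖ ^ 2 := by
      have h3 : ⟪KK (rr n) w, w⟫_ℝ = ((n : ℝ) ^ 2)⁻¹ * ∑ i, ∑ j, mc (rr n) w (swap i j) := by
        rw [KK_apply, real_inner_smul_left, sum_inner]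
        congr 1
        refine Finset.sum_congr rfl fun i _ => ?_
        rw [sum_inner]
        rfl
      rw [hKw, real_inner_smul_left, real_inner_self_eq_norm_sq] at h3
      have h4 : ∑ i, ∑ j, mc (rr n) w (swap i j) = (n : ℝ) ^ 2 * (r * ‖w‖ ^ 2) := by
        rw [h3, ← mul_assoc, mul_inv_cancel₀ (by positivity), one_mul]
      have h5 : ∑ x, ∑ y, DD (rr n) w x y = ∑ _x : Fin n, ∑ _y : Fin n, ‖w‖ ^ 2 -
          ∑ x, ∑ y, mc (rr n) w (swap x y) := by
        rw [← Finset.sum_sub_distrib]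
        refine Finset.sum_congr rfl fun i _ => ?_
        rw [← Finset.sum_sub_distrib]
        refine Finset.sum_congr rfl fun j _ => ?_
        rw [DD, mc_one]
      rw [h5, h4]
      simp only [Finset.sum_const, Finset.card_univ, Fintype.card_fin, nsmul_eq_mul]
      ring
    rw [h2] at h1
    have h3 : κ * ((1 / n) * ((n : ℝ) ^ 2 * (1 - r) * ‖w‖ ^ 2)) =
        2 * (κ * ((n : ℝ) / 2 * (1 - r))) * ‖w‖ ^ 2 := by
      field_simp
    rw [h3] at h1
    have h4 : (κ * ((n : ℝ) / 2 * (1 - r))) * ‖w‖ ^ 2 ≤ α * ‖w‖ ^ 2 := by linarith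
    exact le_of_mul_le_mul_right h4 hw2'
  -- the value of `x`
  have hx : x = g - Real.exp (-(t * α)) := by
    have h1 := hXw
    rw [hXa, hGw, EE_eig c t hαw, ← sub_smul] at h1
    exact (smul_left_injective ℝ hw00 h1).symm
  -- the level
  obtain ⟨F, hF⟩ : ∃ F : Submodule ℝ (L2 n), ∀ u, u ∈ F ↔ (Gp (rr n) p u = g • u ∧ KK (rr n) u = r • u) :=
    ⟨LinearMap.ker (Gp (rr n) p - g • LinearMap.id) ⊓ LinearMap.ker (KK (rr n) - r • LinearMap.id),
      fun u => by
        rw [Submodule.mem_inf, LinearMap.mem_ker, LinearMap.sub_apply, LinearMap.smul_apply,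
          LinearMap.id_apply, sub_eq_zero, LinearMap.mem_ker, LinearMap.sub_apply,
          LinearMap.smul_apply, LinearMap.id_apply, sub_eq_zero]⟩
  have hFρ : ∀ g, ∀ u ∈ F, rr n g u ∈ F := by
    intro h u hu
    rw [hF] at hu ⊢
    exact ⟨by rw [RT.Gp_comm, hu.1, map_smul], by rw [RT.KK_comm, hu.2, map_smul]⟩
  have hFne : F ≠ ⊥ := by
    intro h0
    have : w ∈ F := (hF w).2 ⟨hGw, hKw⟩
    rw [h0, Submodule.mem_bot] at this
    exact hw00 this
  obtain ⟨A, ⟨u, huF, hu0, hu⟩, hA⟩ := RT.exists_level F hFρ hFne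
  have hu2 : 0 < ‖u‖ ^ 2 := by positivity
  have hlev := level_gap hn F hFρ A huF hu0 hu hA ((hF u).1 huF).2
  have hαk : κ * (A.card / 4) ≤ α := (mul_le_mul_of_nonneg_left hlev hκ.le).trans hα
  have hα0 : 0 ≤ α := le_trans (by positivity) hαk
  have hgk := hU.Gp_ge hp.le hp1 A hu
  rw [((hF u).1 huF).1, real_inner_smul_left, real_inner_self_eq_norm_sq] at hgk
  have hg1 : p ^ A.card * (1 - p) ^ (n - A.card) ≤ g := le_of_mul_le_mul_right hgk hu2
  rw [hx, sub_nonneg]
  rcases Nat.eq_zero_or_pos A.card with hk | hk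
  · have hA0 : A = ∅ := Finset.card_eq_zero.mp hk
    rw [hA0, Finset.compl_empty] at hu
    have h1 := RT.Gp_inv p hu
    rw [((hF u).1 huF).1] at h1
    have h2 : g = 1 := by
      have h3 : g • u = (1 : ℝ) • u := by rw [h1, one_smul]
      exact smul_left_injective ℝ hu0 h3
    rw [h2, Real.exp_le_one_iff, neg_nonpos]
    positivity
  · refine le_trans ?_ hg1
    have h1 : Real.exp (-(t * α)) ≤ (p / 2) ^ A.card := by
      calc Real.exp (-(t * α)) ≤ Real.exp (A.card * (-(t * κ / 4))) := by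
            apply Real.exp_le_exp.2
            have := mul_le_mul_of_nonneg_left hαk ht
            have h2 : (A.card : ℝ) * (-(t * κ / 4)) = -(t * (κ * (A.card / 4))) := by ring
            rw [h2]
            linarith
        _ = Real.exp (-(t * κ / 4)) ^ A.card := Real.exp_nat_mul _ _
        _ ≤ (p / 2) ^ A.card := pow_le_pow_left₀ (Real.exp_pos _).le hexp _
    refine h1.trans ?_
    have hq : 0 ≤ 1 - p := by linarith
    have h2 : (1 / 2 : ℝ) ≤ (1 - p) ^ (n - A.card) := by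
      have h3 : 1 - n * p ≤ (1 - p) ^ n := by
        have h4 := one_add_mul_le_pow (a := -p) (by linarith) n
        have e : (1 : ℝ) + -p = 1 - p := by ring
        rw [e] at h4
        linarith
      have h4 : (1 - p) ^ n ≤ (1 - p) ^ (n - A.card) :=
        pow_le_pow_of_le_one hq (by linarith) (Nat.sub_le _ _)
      linarith
    have h3 : (1 / 2 : ℝ) ^ A.card ≤ 1 / 2 := by
      calc (1 / 2 : ℝ) ^ A.card ≤ (1 / 2) ^ 1 := pow_le_pow_of_le_one (by norm_num) (by norm_num) hk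
        _ = 1 / 2 := pow_one _
    calc (p / 2) ^ A.card = p ^ A.card * (1 / 2) ^ A.card := by rw [← mul_pow]; congr 1; ring
      _ ≤ p ^ A.card * (1 - p) ^ (n - A.card) :=
          mul_le_mul_of_nonneg_left (h3.trans h2) (by positivity)

theorem eB_rr_dl (B : Finset (Fin n)) (σ : Perm (Fin n)) :
    eB (rr n) B (dl σ) σ = ((RT.HB B).card : ℝ)⁻¹ := by
  rw [RT.eB_apply, PiLp.smul_apply, RT.sum_apply']
  have h1 : ∀ g ∈ RT.HB B, rr n g (dl σ) σ = if g = 1 then (1 : ℝ) else 0 := by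
    intro g _
    rw [rr_apply, dl_apply]
    congr 1
    exact propext mul_eq_left
  rw [Finset.sum_congr rfl h1, Finset.sum_ite_eq', if_pos (RT.mem_HB.2 (RT.InH.one B)), smul_eq_mul,
    mul_one]

theorem Gp_rr_dl (p : ℝ) (σ : Perm (Fin n)) :
    Gp (rr n) p (dl σ) σ = Gp (RT.reg n) p (dl 1) 1 := by
  rw [Gp_apply, Gp_apply, RT.sum_apply', RT.sum_apply']
  refine Finset.sum_congr rfl fun A _ => ?_
  rw [PiLp.smul_apply, PiLp.smul_apply, eB_rr_dl, RT.eB_reg_dl, if_pos (RT.InH.one _)]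

theorem lev : LevStm := by
  intro n c κ t p hn _ hκ ht hp hnp hexp hcomp σ
  have hn0 : (0 : ℝ) < n := by exact_mod_cast (show 0 < n by omega)
  have hn2 : (2 : ℝ) ≤ n := by exact_mod_cast hn
  have hp1 : p ≤ 1 := by nlinarith
  have h1 := EE_le_Gp hn (c := c) hκ ht hp hnp hexp (fun f => hcomp (L2 n) (rr n) (unit_rr n) f) (dl σ)
  rw [inner_dl', inner_dl', EE_apply, Gp_rr_dl] at h1
  have h2 : ∑ τ, E (ipGen c) t σ τ * (dl σ : L2 n) τ = E (ipGen c) t σ σ := by
    simp only [dl_apply, mul_ite, mul_one, mul_zero]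
    rw [Finset.sum_ite_eq' univ σ, if_pos (mem_univ _)]
  rw [h2] at h1
  have h3 : NormedSpace.exp (t • ipGen c) σ σ = E (ipGen c) t σ σ := rfl
  rw [h3]
  have h4 := RT.Gp_dl_le hp.le hp1 (1 : Perm (Fin n))
  have h5 : (RT.Fx (1 : Perm (Fin n))).card = n := by
    have : RT.Fx (1 : Perm (Fin n)) = univ := by
      ext x
      simp [RT.mem_Fx]
    rw [this, Finset.card_univ, Fintype.card_fin]
  rw [h5] at h4
  have h6 : (0 : ℝ) ≤ (n.factorial : ℝ) := Nat.cast_nonneg _
  calc (n.factorial : ℝ) * E (ipGen c) t σ σ ≤ (n.factorial : ℝ) * Gp (RT.reg n) p (dl 1) 1 :=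
        mul_le_mul_of_nonneg_left h1 h6
    _ ≤ (1 + n * p) ^ n := h4
    _ ≤ (Real.exp (n * p)) ^ n := by
        refine pow_le_pow_left₀ (by positivity) ?_ n
        have := Real.add_one_le_exp ((n : ℝ) * p)
        linarith
    _ = Real.exp (n ^ 2 * p) := by
        rw [← Real.exp_nat_mul]
        congr 1
        ring

end

end Pool.Agent.Q224.OC
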